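import Pool.Agent.helper69.AD.GS1

/-!
Module BD11: transport by an orientation preserving homeomorphism of the circle.
-/

open scoped MatrixGroups LinearAlgebra.Projectivization
open Matrix UpperHalfPlane

namespace AdSBend

theorem BD11 (h4 : BD4_stmt) (h5 : BD5_stmt) (h6 : BD6_stmt) (h7 : BD7_stmt) : BD11_stmt := by
  intro Γ f r hf
  obtain ⟨hcyc, heq⟩ := hf
  obtain ⟨hd, hrot, hasym, htot, -⟩ := h4
  have hiff : ∀ x y z, Cyc (f x) (f y) (f z) ↔ Cyc x y z := by
    intro x y z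
    refine ⟨fun h => ?_, hcyc x y z⟩
    obtain ⟨a1, a2, a3⟩ := hd _ _ _ h
    have b1 : x ≠ y := fun e => a1 (congrArg f e)
    have b2 : y ≠ z := fun e => a2 (congrArg f e)
    have b3 : z ≠ x := fun e => a3 (congrArg f e)
    rcases htot x y z b1 b2 b3 with h' | h'
    · exact h'
    · exact absurd (hcyc _ _ _ h') (hasym _ _ _ h)
  have hneg : ∀ (g : SL(2, ℝ)) (x : Bd), (-g) • x = g • x := by
    intro g x
    obtain ⟨F, hF⟩ : ∃ F : SL(2, ℝ), F • bInf = x := by
      by_cases hx : x = bInf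
      · exact ⟨1, by rw [one_smul, hx]⟩
      · obtain ⟨F, hF⟩ := h6.1 (x, bInf) hx
        exact ⟨F, hF.1⟩
    obtain ⟨y, hy⟩ : ∃ y, F • bZero = y := ⟨_, rfl⟩
    have h8 : IsFrame F (x, y) := ⟨hF, hy⟩
    have h9 := h6.2.2.2.2.2.1 F g (x, y) h8
    have h10 := (h6.2.2.2.2.2.2 _ _ h9).1
    have h11 : -(g * F) = (-g) * F := by rw [neg_mul]
    rw [h11, mul_smul, hF] at h10
    exact h10
  have hPEq : ∀ (g h : SL(2, ℝ)) (x : Bd), PEq g h → g • x = h • x := by
    rintro g h x (e | e)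
    · rw [e]
    · rw [e, hneg]
  refine ⟨hiff, ?_, ?_, ?_, ?_, ?_⟩
  · intro x y z w
    unfold Linked
    simp only [hiff]
  · intro p q
    unfold Facing
    simp only [hiff]
  · intro p q
    unfold Inside
    simp only [hiff]
  · rintro γ hγ p ⟨hne, e1, e2, hm⟩
    refine ⟨fun h => hne (f.injective h), ?_, ?_, ?_⟩
    · show r γ • f p.1 = f p.1
      rw [← heq γ hγ, e1]
    · show r γ • f p.2 = f p.2
      rw [← heq γ hγ, e2]
    · intro c hc
      obtain ⟨c', rfl⟩ := f.surjective c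
      show Cyc (f p.2) (f c') (r γ • f c')
      rw [← heq γ hγ, hiff]
      exact hm c' ((hiff _ _ _).1 hc)
  · intro γ hγ δ hδ ε hε hP
    have hact : ∀ x : Bd, (r ε) • x = (r γ * r δ) • x := by
      intro x
      obtain ⟨y, rfl⟩ := f.surjective x
      rw [mul_smul, ← heq δ hδ, ← heq γ hγ, ← heq ε hε, hPEq ε (γ * δ) y hP, mul_smul]
    have hfix : ∀ x : Bd, ((r γ * r δ)⁻¹ * r ε) • x = x := by
      intro x
      rw [mul_smul, hact, inv_smul_smul]
    have n1 : bInf ≠ bPt 0 := (h7.2.2.1 0).symm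
    have n2 : bPt 0 ≠ bPt 1 := fun h => by
      have := h7.2.1 0 1 h
      norm_num at this
    have n3 : bPt 1 ≠ bInf := h7.2.2.1 1
    rcases h5 _ bInf (bPt 0) (bPt 1) n1 n2 n3 (hfix _) (hfix _) (hfix _) with h | h
    · left
      exact (inv_mul_eq_one.1 h).symm
    · right
      have := inv_mul_eq_iff_eq_mul.1 h
      rw [this, mul_neg, mul_one]

end AdSBend
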