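import Pool.Agent.helper69.AD.GS2

/-!
Module PN5: lying in the same plaque is an equivalence relation, invariant under the group.
-/

open scoped MatrixGroups LinearAlgebra.Projectivization
open Matrix UpperHalfPlane

namespace AdSBend

theorem PN5 (h1 : PT1_stmt) (h2 : BD2_stmt) : PN5_stmt := by
  intro Γ S
  have hswap : ∀ (z : ℍ) (x y : Bd), side z y x = - side z x y := by
    intro z x y; unfold side dt; ring
  -- sides under the group, in the form with the inverse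
  have hpos : ∀ (g : SL(2, ℝ)) (z : ℍ) (x y : Bd),
      (0 < side (g • z) x y ↔ 0 < side z (g⁻¹ • x) (g⁻¹ • y)) := by
    intro g z x y
    have := (h1 g z (g⁻¹ • x) (g⁻¹ • y)).1
    rwa [smul_inv_smul, smul_inv_smul] at this
  have hneg : ∀ (g : SL(2, ℝ)) (z : ℍ) (x y : Bd),
      (side (g • z) x y < 0 ↔ side z (g⁻¹ • x) (g⁻¹ • y) < 0) := by
    intro g z x y
    have := (h1 g z (g⁻¹ • x) (g⁻¹ • y)).2.1
    rwa [smul_inv_smul, smul_inv_smul] at this
  have hzero : ∀ (g : SL(2, ℝ)) (z : ℍ) (x y : Bd),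
      (side (g • z) x y = 0 ↔ side z (g⁻¹ • x) (g⁻¹ • y) = 0) := by
    intro g z x y
    have := (h1 g z (g⁻¹ • x) (g⁻¹ • y)).2.2.1
    rwa [smul_inv_smul, smul_inv_smul] at this
  have hsep : ∀ (g : SL(2, ℝ)) (z z' : ℍ) (x y : Bd),
      SepPts x y (g • z) (g • z') ↔ SepPts (g⁻¹ • x) (g⁻¹ • y) z z' := by
    intro g z z' x y
    unfold SepPts
    rw [mul_neg_iff, mul_neg_iff, hpos, hneg, hneg, hpos]
  have hinv : ∀ γ ∈ Γ, ∀ p ∈ S.L, (γ⁻¹ • p.1, γ⁻¹ • p.2) ∈ S.L :=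
    fun γ hγ p hp => S.inv γ⁻¹ (Γ.inv_mem hγ) p hp
  have hInside : ∀ (g : SL(2, ℝ)) (p q : Bd × Bd),
      Inside (g • p.1, g • p.2) q ↔ Inside p (g⁻¹ • q.1, g⁻¹ • q.2) := by
    intro g p q
    unfold Inside
    have e1 : q.1 = g • g⁻¹ • q.1 := (smul_inv_smul g q.1).symm
    have e2 : q.2 = g • g⁻¹ • q.2 := (smul_inv_smul g q.2).symm
    constructor
    · rintro ⟨h3, h4⟩
      rw [e1] at h3 h4
      rw [e2] at h4
      exact ⟨(h2 g _ _ _).1 h3, (h2 g _ _ _).1 h4⟩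
    · rintro ⟨h3, h4⟩
      have h3' := (h2 g _ _ _).2 h3
      have h4' := (h2 g _ _ _).2 h4
      simp only [smul_inv_smul] at h3' h4'
      exact ⟨h3', h4'⟩
  have hOff : ∀ γ ∈ Γ, ∀ z, S.OffPt z → S.OffPt (γ • z) := by
    intro γ hγ z hz p hp h0
    exact hz _ (hinv γ hγ p hp) ((hzero γ z p.1 p.2).1 h0)
  have hFront : ∀ (γ : SL(2, ℝ)) (p : Bd × Bd) (z : ℍ),
      FrontPt (γ • p.1, γ • p.2) (γ • z) ↔ FrontPt p z := fun γ p z => (h1 γ z p.1 p.2).2.1
  have hBehind : ∀ (γ : SL(2, ℝ)) (p : Bd × Bd) (z : ℍ),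
      BehindPt (γ • p.1, γ • p.2) (γ • z) ↔ BehindPt p z := fun γ p z => (h1 γ z p.1 p.2).1
  refine ⟨?_, ?_, hOff, ?_, ?_, ?_, ?_⟩
  · intro z z' h p hp hs
    apply h p hp
    unfold SepPts at hs ⊢
    rwa [mul_comm]
  · intro z z' z'' hz hz' hz'' h h' p hp hs
    have a1 := h p hp
    have a2 := h' p hp
    have b1 := hz p hp
    have b2 := hz' p hp
    have b3 := hz'' p hp
    unfold SepPts at a1 a2 hs
    rw [not_lt] at a1 a2
    have c1 : 0 < side z p.1 p.2 * side z' p.1 p.2 := lt_of_le_of_ne a1 (mul_ne_zero b1 b2).symm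
    have c2 : 0 < side z' p.1 p.2 * side z'' p.1 p.2 := lt_of_le_of_ne a2 (mul_ne_zero b2 b3).symm
    have c3 := mul_pos c1 c2
    have c4 : side z p.1 p.2 * side z' p.1 p.2 * (side z' p.1 p.2 * side z'' p.1 p.2)
        = (side z p.1 p.2 * side z'' p.1 p.2) * side z' p.1 p.2 ^ 2 := by ring
    rw [c4] at c3
    have c5 : 0 < side z' p.1 p.2 ^ 2 := by positivity
    have c6 := (pos_iff_pos_of_mul_pos c3).2 c5
    linarith
  · intro γ hγ z z' h p hp hs
    exact h _ (hinv γ hγ p hp) ((hsep γ z z' p.1 p.2).1 hs)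
  · rintro γ hγ p z z' ⟨hp, hf, hb, hu⟩
    refine ⟨S.inv γ hγ p hp, (hFront γ p z).2 hf, (hBehind γ p z').2 hb, ?_⟩
    intro q hq hs
    rcases hu _ (hinv γ hγ q hq) ((hsep γ z z' q.1 q.2).1 hs) with h3 | h3
    · left
      have e1 : γ⁻¹ • q.1 = p.1 := congrArg Prod.fst h3
      have e2 : γ⁻¹ • q.2 = p.2 := congrArg Prod.snd h3
      rw [← e1, ← e2, smul_inv_smul, smul_inv_smul]
    · right
      have e1 : γ⁻¹ • q.1 = p.2 := congrArg Prod.fst h3
      have e2 : γ⁻¹ • q.2 = p.1 := congrArg Prod.snd h3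
      rw [← e1, ← e2]
      simp only [smul_inv_smul]
  · rintro γ hγ p z ⟨ho, hf, hn⟩
    refine ⟨hOff γ hγ z ho, (hFront γ p z).2 hf, ?_⟩
    intro q hq hfq hin
    have h3 : FrontPt (γ⁻¹ • q.1, γ⁻¹ • q.2) z := (hneg γ z q.1 q.2).1 hfq
    exact hn _ (hinv γ hγ q hq) h3 ((hInside γ p q).1 hin)
  · rintro p z z' ⟨hp, hf, hb, hu⟩
    refine ⟨S.swap p hp, ?_, ?_, ?_⟩
    · show side z' p.2 p.1 < 0
      have : 0 < side z' p.1 p.2 := hb
      rw [hswap]; linarith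
    · show 0 < side z p.2 p.1
      have : side z p.1 p.2 < 0 := hf
      rw [hswap]; linarith
    · intro q hq hs
      have hs' : SepPts q.1 q.2 z z' := by
        unfold SepPts at hs ⊢
        rwa [mul_comm]
      rcases hu q hq hs' with h3 | h3
      · right; rw [h3]
      · left; rw [h3]

end AdSBend
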