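import Pool.Agent.helper69.AD.GS1

/-!
Modules PT3 (half planes) and PT4 (two geodesics with a common point).
-/

open scoped MatrixGroups LinearAlgebra.Projectivization
open Matrix UpperHalfPlane

namespace AdSBend

/-- the scalar product belonging to a point of the upper half plane -/
noncomputable def PT3_B (r m : ℝ) (u v : Fin 2 → ℝ) : ℝ :=
  (u 0 - r * u 1) * (v 0 - r * v 1) + m ^ 2 * (u 1 * v 1)

theorem PT3_side (z : ℍ) (x y : Bd) :
    side z x y = PT3_B z.re z.im x.rep y.rep * dt x.rep y.rep := rfl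

theorem PT3_B_self (r m : ℝ) (hm : 0 < m) (u : Fin 2 → ℝ) (hu : u ≠ 0) : 0 < PT3_B r m u u := by
  unfold PT3_B
  by_cases h1 : u 1 = 0
  · have h0 : u 0 ≠ 0 := by
      intro h0
      apply hu
      ext i
      fin_cases i
      · exact h0
      · exact h1
    rw [h1]
    have : (u 0 - r * 0) * (u 0 - r * 0) + m ^ 2 * (0 * 0) = u 0 ^ 2 := by ring
    rw [this]
    positivity
  · have : (u 0 - r * u 1) * (u 0 - r * u 1) + m ^ 2 * (u 1 * u 1)
        = (u 0 - r * u 1) ^ 2 + m ^ 2 * (u 1) ^ 2 := by ring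
    rw [this]
    positivity

theorem PT3_B_symm (r m : ℝ) (u v : Fin 2 → ℝ) : PT3_B r m u v = PT3_B r m v u := by
  unfold PT3_B; ring

theorem PT3_expand (r m : ℝ) (a b c d : Fin 2 → ℝ) :
    PT3_B r m c d * dt a b ^ 2 = dt c b * dt d b * PT3_B r m a a + dt a c * dt a d * PT3_B r m b b
      + (dt c b * dt a d + dt a c * dt d b) * PT3_B r m a b := by
  unfold PT3_B dt; ring

theorem PT3_anti (u v : Fin 2 → ℝ) : dt u v = - dt v u := by unfold dt; ring

theorem PT3_swap (z : ℍ) (x y : Bd) : side z y x = - side z x y := by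
  unfold side dt; ring

theorem PT3_inside (h4 : BD4_stmt) (p q : Bd × Bd) (z : ℍ) (hpq : Inside p q)
    (hz : 0 ≤ side z p.1 p.2) : 0 < side z q.1 q.2 := by
  obtain ⟨h1, h2⟩ := hpq
  obtain ⟨-, hrot, -, -, htr, -⟩ := h4
  obtain ⟨h3, h5⟩ := htr _ _ _ _ h1 h2
  rw [PT3_side] at hz ⊢
  have ha : p.1.rep ≠ 0 := p.1.rep_nonzero
  have hb : p.2.rep ≠ 0 := p.2.rep_nonzero
  unfold Cyc at h1 h2 h3 h5
  have hA := PT3_B_self z.re z.im z.im_pos p.1.rep ha
  have hB := PT3_B_self z.re z.im z.im_pos p.2.rep hb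
  have hX := PT3_expand z.re z.im p.1.rep p.2.rep q.1.rep q.2.rep
  generalize PT3_B z.re z.im p.1.rep p.1.rep = A at *
  generalize PT3_B z.re z.im p.2.rep p.2.rep = B at *
  generalize PT3_B z.re z.im p.1.rep p.2.rep = M at *
  generalize PT3_B z.re z.im q.1.rep q.2.rep = X at *
  have nca := PT3_anti q.1.rep p.1.rep
  have nbc := PT3_anti p.2.rep q.1.rep
  have nbd := PT3_anti p.2.rep q.2.rep
  have ndc := PT3_anti q.2.rep q.1.rep
  have nda := PT3_anti q.2.rep p.1.rep
  rw [nca, nbc] at h1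
  rw [nbd, ndc] at h2
  rw [nca, ndc] at h3
  rw [nbd, nda] at h5
  generalize dt p.1.rep p.2.rep = ab at *
  generalize dt p.1.rep q.1.rep = ac at *
  generalize dt p.1.rep q.2.rep = ad at *
  generalize dt q.1.rep p.2.rep = cb at *
  generalize dt q.2.rep p.2.rep = db at *
  generalize dt q.1.rep q.2.rep = cd at *
  -- signs
  have hab : ab ≠ 0 := by rintro rfl; simp at h1
  have e1 : 0 < cd * cb * db := by nlinarith
  have e2 : 0 < cd * ac * ad := by nlinarith
  have e3 : cd * cb * ad * ab > 0 := by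
    have := mul_pos h2 h5
    have hdb : 0 < db ^ 2 := by
      have : db ≠ 0 := by rintro rfl; simp at h5
      positivity
    have h7 : cb * -db * -cd * (ab * -db * -ad) = (cd * cb * ad * ab) * db ^ 2 := by ring
    rw [h7] at this
    exact (pos_iff_pos_of_mul_pos this).2 hdb
  have e4 : cd * ac * db * ab > 0 := by
    have := mul_pos h3 h5
    have hda : 0 < ad ^ 2 := by
      have : ad ≠ 0 := by rintro rfl; simp at h5
      positivity
    have h7 : -ac * ad * -cd * (ab * -db * -ad) = (cd * ac * db * ab) * ad ^ 2 := by ring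
    rw [h7] at this
    exact (pos_iff_pos_of_mul_pos this).2 hda
  have hab2 : 0 < ab ^ 2 := by positivity
  have hfin : X * cd * ab ^ 2 * ab ^ 2 = (cd * cb * db) * A * ab ^ 2 + (cd * ac * ad) * B * ab ^ 2
      + ((cd * cb * ad * ab) + (cd * ac * db * ab)) * (M * ab) := by
    have : X * cd * ab ^ 2 * ab ^ 2 = (X * ab ^ 2) * cd * ab ^ 2 := by ring
    rw [this, hX]; ring
  have hpos : 0 < X * cd * ab ^ 2 * ab ^ 2 := by
    rw [hfin]
    have t1 : 0 < (cd * cb * db) * A * ab ^ 2 := by positivity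
    have t2 : 0 < (cd * ac * ad) * B * ab ^ 2 := by positivity
    have t3 : 0 ≤ ((cd * cb * ad * ab) + (cd * ac * db * ab)) * (M * ab) :=
      mul_nonneg (by linarith) hz
    linarith
  have h8 : X * cd * ab ^ 2 * ab ^ 2 = (X * cd) * (ab ^ 2 * ab ^ 2) := by ring
  rw [h8] at hpos
  exact (pos_iff_pos_of_mul_pos hpos).2 (by positivity)

theorem PT3 (h4 : BD4_stmt) (h12 : BD12_stmt) : PT3_stmt := by
  refine ⟨fun p q z h hz => PT3_inside h4 p q z h hz, fun p q z h hz => ?_⟩
  have h1 := (h12.2.1 p q).1 h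
  have h2 := PT3_inside h4 p (q.2, q.1) z h1 hz
  have h3 := PT3_swap z q.1 q.2
  simp only at h2
  rw [h3] at h2
  linarith

end AdSBend
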