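import Pool.Agent.helper3.AG.PT3

/-!
Module PT4: two geodesics with a common point.
-/

open scoped MatrixGroups LinearAlgebra.Projectivization
open Matrix UpperHalfPlane

namespace AdSBend

theorem PT4_eq_of_dt (x y : Bd) (h : dt x.rep y.rep = 0) : x = y := by
  have hx : x.rep ≠ 0 := x.rep_nonzero
  have hy : y.rep ≠ 0 := y.rep_nonzero
  rw [← x.mk_rep, ← y.mk_rep, Projectivization.mk_eq_mk_iff']
  generalize x.rep = u at *
  generalize y.rep = v at *
  unfold dt at h
  by_cases h1 : v 1 = 0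
  · have h0 : v 0 ≠ 0 := by
      intro h0
      apply hy
      ext i
      fin_cases i
      · exact h0
      · exact h1
    rw [h1] at h
    have hu1 : u 1 = 0 := by
      have : u 1 * v 0 = 0 := by linarith
      exact (mul_eq_zero.1 this).resolve_right h0
    refine ⟨u 0 / v 0, ?_⟩
    ext i
    fin_cases i
    · simp [h0]
    · simp [h1, hu1]
  · refine ⟨u 1 / v 1, ?_⟩
    ext i
    fin_cases i
    · have : u 1 / v 1 * v 0 = u 0 := by
        field_simp
        linarith
      simpa using this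
    · simp [h1]

theorem PT4 (h4 : BD4_stmt) : PT4_stmt := by
  intro p q z hp hq h1 h2
  obtain ⟨-, -, -, htot, -⟩ := h4
  rw [PT3_side] at h1 h2
  have hA := PT3_B_self z.re z.im z.im_pos p.1.rep p.1.rep_nonzero
  have hB := PT3_B_self z.re z.im z.im_pos p.2.rep p.2.rep_nonzero
  have hX := PT3_expand z.re z.im p.1.rep p.2.rep q.1.rep q.2.rep
  have hab : dt p.1.rep p.2.rep ≠ 0 := fun h => hp (PT4_eq_of_dt _ _ h)
  have hcd : dt q.1.rep q.2.rep ≠ 0 := fun h => hq (PT4_eq_of_dt _ _ h)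
  have hM : PT3_B z.re z.im p.1.rep p.2.rep = 0 := (mul_eq_zero.1 h1).resolve_right hab
  have hX0 : PT3_B z.re z.im q.1.rep q.2.rep = 0 := (mul_eq_zero.1 h2).resolve_right hcd
  rw [hM, hX0] at hX
  have hne : ∀ x y : Bd, x ≠ y → dt x.rep y.rep ≠ 0 := fun x y h h0 => h (PT4_eq_of_dt _ _ h0)
  have key : dt q.1.rep p.2.rep * dt q.2.rep p.2.rep * PT3_B z.re z.im p.1.rep p.1.rep +
      dt p.1.rep q.1.rep * dt p.1.rep q.2.rep * PT3_B z.re z.im p.2.rep p.2.rep = 0 := by
    linarith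
  have hself : ∀ x : Bd, dt x.rep x.rep = 0 := by intro x; unfold dt; ring
  by_cases c1 : q.1 = p.1
  · left
    rw [c1, hself] at key
    have h5 : dt p.1.rep p.2.rep * dt q.2.rep p.2.rep * PT3_B z.re z.im p.1.rep p.1.rep = 0 := by
      linarith
    rcases mul_eq_zero.1 h5 with h6 | h6
    · rcases mul_eq_zero.1 h6 with h7 | h7
      · exact absurd h7 hab
      · exact Prod.ext c1 (PT4_eq_of_dt _ _ h7)
    · exact absurd h6 hA.ne'
  by_cases c2 : q.1 = p.2
  · right; left
    rw [c2, hself] at key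
    have h5 : dt p.1.rep p.2.rep * dt p.1.rep q.2.rep * PT3_B z.re z.im p.2.rep p.2.rep = 0 := by
      linarith
    rcases mul_eq_zero.1 h5 with h6 | h6
    · rcases mul_eq_zero.1 h6 with h7 | h7
      · exact absurd h7 hab
      · exact Prod.ext c2 (PT4_eq_of_dt _ _ h7).symm
    · exact absurd h6 hB.ne'
  by_cases c3 : q.2 = p.1
  · exfalso
    rw [c3, hself] at key
    have h5 : dt q.1.rep p.2.rep * dt p.1.rep p.2.rep * PT3_B z.re z.im p.1.rep p.1.rep = 0 := by
      linarith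
    rcases mul_eq_zero.1 h5 with h6 | h6
    · rcases mul_eq_zero.1 h6 with h7 | h7
      · exact c2 (PT4_eq_of_dt _ _ h7)
      · exact absurd h7 hab
    · exact absurd h6 hA.ne'
  by_cases c4 : q.2 = p.2
  · exfalso
    rw [c4, hself] at key
    have h5 : dt p.1.rep q.1.rep * dt p.1.rep p.2.rep * PT3_B z.re z.im p.2.rep p.2.rep = 0 := by
      linarith
    rcases mul_eq_zero.1 h5 with h6 | h6
    · rcases mul_eq_zero.1 h6 with h7 | h7
      · exact c1 (PT4_eq_of_dt _ _ h7).symm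
      · exact absurd h7 hab
    · exact absurd h6 hB.ne'
  right; right
  have t1 := htot p.1 q.1 p.2 (Ne.symm c1) c2 (Ne.symm hp)
  have t2 := htot p.1 q.2 p.2 (Ne.symm c3) c4 (Ne.symm hp)
  have contra : 0 < (dt q.1.rep p.2.rep * dt q.2.rep p.2.rep) *
      (dt p.1.rep q.1.rep * dt p.1.rep q.2.rep) → False := by
    intro h
    rcases pos_and_pos_or_neg_and_neg_of_mul_pos h with ⟨h5, h6⟩ | ⟨h5, h6⟩
    · have := mul_pos h5 hA
      have := mul_pos h6 hB
      linarith
    · have := mul_neg_of_neg_of_pos h5 hA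
      have := mul_neg_of_neg_of_pos h6 hB
      linarith
  have nba := PT3_anti p.2.rep p.1.rep
  have nca := PT3_anti q.1.rep p.1.rep
  have nda := PT3_anti q.2.rep p.1.rep
  have nbc := PT3_anti p.2.rep q.1.rep
  have nbd := PT3_anti p.2.rep q.2.rep
  rcases t1 with t1 | t1 <;> rcases t2 with t2 | t2
  · exfalso
    apply contra
    unfold Cyc at t1 t2
    have h5 := mul_pos t1 t2
    have h6 : dt p.1.rep q.1.rep * dt q.1.rep p.2.rep * dt p.2.rep p.1.rep *
        (dt p.1.rep q.2.rep * dt q.2.rep p.2.rep * dt p.2.rep p.1.rep) =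
        (dt q.1.rep p.2.rep * dt q.2.rep p.2.rep *
          (dt p.1.rep q.1.rep * dt p.1.rep q.2.rep)) * dt p.2.rep p.1.rep ^ 2 := by ring
    rw [h6] at h5
    have hba : dt p.2.rep p.1.rep ≠ 0 := hne _ _ (Ne.symm hp)
    exact (pos_iff_pos_of_mul_pos h5).2 (by positivity)
  · exact Or.inl ⟨t1, t2⟩
  · exact Or.inr ⟨t2, t1⟩
  · exfalso
    apply contra
    unfold Cyc at t1 t2
    have h5 := mul_pos t1 t2
    rw [nbc, nca, nbd, nda] at h5
    have h6 : dt p.1.rep p.2.rep * -dt q.1.rep p.2.rep * -dt p.1.rep q.1.rep *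
        (dt p.1.rep p.2.rep * -dt q.2.rep p.2.rep * -dt p.1.rep q.2.rep) =
        (dt q.1.rep p.2.rep * dt q.2.rep p.2.rep *
          (dt p.1.rep q.1.rep * dt p.1.rep q.2.rep)) * dt p.1.rep p.2.rep ^ 2 := by ring
    rw [h6] at h5
    exact (pos_iff_pos_of_mul_pos h5).2 (by positivity)

end AdSBend
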