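import Pool.Agent.helper69.AD.GS1

/-!
Module PT6: three ideal points in positive order have an interior point on the negative side of
the three geodesics.
-/

open scoped MatrixGroups LinearAlgebra.Projectivization
open Matrix UpperHalfPlane

namespace AdSBend

theorem PT6 : PT6_stmt := by
  intro x y z h
  unfold Cyc at h
  unfold side
  generalize x.rep = a at h ⊢
  generalize y.rep = b at h ⊢
  generalize z.rep = c at h ⊢
  set A : ℝ := a 1 ^ 2 + b 1 ^ 2 + c 1 ^ 2 with hA
  set B : ℝ := a 0 * a 1 + b 0 * b 1 + c 0 * c 1 with hB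
  set C : ℝ := a 0 ^ 2 + b 0 ^ 2 + c 0 ^ 2 with hC
  have hab : dt a b ≠ 0 := by
    intro h0; rw [h0] at h; simp at h
  have hD : A * C - B ^ 2 = dt a b ^ 2 + dt b c ^ 2 + dt c a ^ 2 := by
    unfold dt; rw [hA, hB, hC]; ring
  have hDpos : 0 < A * C - B ^ 2 := by
    rw [hD]; positivity
  have hApos : 0 < A := by
    have h0 : 0 ≤ A := by rw [hA]; positivity
    rcases h0.lt_or_eq with h1 | h1
    · exact h1
    · rw [← h1] at hDpos
      nlinarith [sq_nonneg B]
  set D : ℝ := A * C - B ^ 2 with hDdef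
  refine ⟨⟨⟨B / A, Real.sqrt D / A⟩, by
    show 0 < Real.sqrt D / A
    positivity⟩, ?_⟩
  have hre : UpperHalfPlane.re ⟨⟨B / A, Real.sqrt D / A⟩, by
    show 0 < Real.sqrt D / A
    positivity⟩ = B / A := rfl
  have him : UpperHalfPlane.im ⟨⟨B / A, Real.sqrt D / A⟩, by
    show 0 < Real.sqrt D / A
    positivity⟩ = Real.sqrt D / A := rfl
  rw [hre, him]
  have hsq : (Real.sqrt D / A) ^ 2 = D / A ^ 2 := by
    rw [div_pow, Real.sq_sqrt hDpos.le]
  rw [hsq]
  have key : ∀ u v : Fin 2 → ℝ, (u 0 - B / A * u 1) * (v 0 - B / A * v 1) + D / A ^ 2 * (u 1 * v 1)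
      = (dt u a * dt v a + dt u b * dt v b + dt u c * dt v c) / A := by
    intro u v
    have h1 : (u 0 - B / A * u 1) * (v 0 - B / A * v 1) + D / A ^ 2 * (u 1 * v 1)
        = (A * (u 0 * v 0) - B * (u 0 * v 1 + u 1 * v 0) + C * (u 1 * v 1)) / A := by
      rw [hDdef]; field_simp; ring
    rw [h1]
    congr 1
    unfold dt; rw [hA, hB, hC]; ring
  rw [key, key, key]
  have e : ∀ u : Fin 2 → ℝ, dt u u = 0 := by intro u; unfold dt; ring
  have n : ∀ u v : Fin 2 → ℝ, dt u v = - dt v u := by intro u v; unfold dt; ring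
  refine ⟨?_, ?_, ?_⟩
  · have : (dt a a * dt b a + dt a b * dt b b + dt a c * dt b c) / A * dt a b
        = - (dt a b * dt b c * dt c a) / A := by
      rw [e, e, n a c]; ring
    rw [this]
    exact div_neg_of_neg_of_pos (by linarith) hApos
  · have : (dt b a * dt c a + dt b b * dt c b + dt b c * dt c c) / A * dt b c
        = - (dt a b * dt b c * dt c a) / A := by
      rw [e, e, n b a]; ring
    rw [this]
    exact div_neg_of_neg_of_pos (by linarith) hApos
  · have : (dt c a * dt a a + dt c b * dt a b + dt c c * dt a c) / A * dt c a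
        = - (dt a b * dt b c * dt c a) / A := by
      rw [e, e, n c b]; ring
    rw [this]
    exact div_neg_of_neg_of_pos (by linarith) hApos

end AdSBend
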